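import Mathlib
import Pool.Agent.H19.Reduce

/-!
A small calculus of relations which are computably enumerable in an oracle.
-/

set_option autoImplicit false

namespace Pool.Agent.H24P

open Encodable Pool.Agent.H19

variable {α β γ : Type*} [Primcodable α] [Primcodable β] [Primcodable γ]

/-- The relation `P` is computably enumerable in the oracle `Z`. -/
def Sg (Z : ℕ → Bool) (P : α → Prop) : Prop :=
  ∃ H : α → List Bool → Bool, Computable₂ H ∧ ∀ a, P a ↔ ∃ s, H a (pre Z s) = true

theorem Sg.congr {Z : ℕ → Bool} {P Q : α → Prop} (h : Sg Z P) (e : ∀ a, P a ↔ Q a) : Sg Z Q := by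
  have : P = Q := funext fun a => propext (e a)
  rwa [← this]

theorem Sg.exists_mono {Z : ℕ → Bool} {P : α → Prop} (h : Sg Z P) :
    ∃ H : α → List Bool → Bool, Computable₂ H ∧
      (∀ a σ τ, σ <+: τ → H a σ = true → H a τ = true) ∧
      ∀ a, P a ↔ ∃ s, H a (pre Z s) = true := by
  obtain ⟨H, hH, hP⟩ := h
  refine ⟨fun a τ => (List.range (τ.length + 1)).any fun s => H a (τ.take s), ?_, ?_, ?_⟩
  · refine comp_list_any (f := fun p : α × List Bool => List.range (p.2.length + 1))
      (g := fun p s => H p.1 (p.2.take s)) ?_ ?_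
    · exact comp_range (Computable.succ.comp (Computable.list_length.comp Computable.snd))
    · exact hH.comp (Computable.fst.comp Computable.fst)
        (comp_take Computable.snd (Computable.snd.comp Computable.fst))
  · intro _ σ τ hστ h
    simp only [List.any_eq_true, List.mem_range] at h ⊢
    obtain ⟨s, hs, h⟩ := h
    have hl := hστ.length_le
    refine ⟨s, by omega, ?_⟩
    obtain ⟨u, rfl⟩ := hστ
    rwa [List.take_append_of_le_length (by omega)]
  · intro a
    rw [hP]
    simp only [List.any_eq_true, List.mem_range]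
    constructor
    · rintro ⟨s, hs⟩
      refine ⟨s, s, by rw [pre_length]; omega, ?_⟩
      rwa [pre_take Z le_rfl]
    · rintro ⟨s, t, ht, h⟩
      rw [pre_length] at ht
      rw [pre_take Z (by omega)] at h
      exact ⟨t, h⟩

theorem Sg.of_comp {Z : ℕ → Bool} {p : α → Bool} (hp : Computable p) :
    Sg Z (fun a => p a = true) :=
  ⟨fun a _ => p a, hp.comp Computable.fst, fun a => ⟨fun h => ⟨0, h⟩, fun ⟨_, h⟩ => h⟩⟩

theorem Sg.const (Z : ℕ → Bool) (p : Prop) : Sg Z (fun _ : α => p) := by
  classical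
  exact (Sg.of_comp (Computable.const (decide p))).congr fun a => by simp

theorem Sg.comp {Z : ℕ → Bool} {P : β → Prop} (h : Sg Z P) {f : α → β} (hf : Computable f) :
    Sg Z (fun a => P (f a)) := by
  obtain ⟨H, hH, hP⟩ := h
  exact ⟨fun a σ => H (f a) σ, hH.comp (hf.comp Computable.fst) Computable.snd,
    fun a => hP (f a)⟩

theorem Sg.and {Z : ℕ → Bool} {P Q : α → Prop} (hP : Sg Z P) (hQ : Sg Z Q) :
    Sg Z (fun a => P a ∧ Q a) := by
  obtain ⟨H, hH, hm, hP⟩ := hP.exists_mono
  obtain ⟨K, hK, km, hQ⟩ := hQ.exists_mono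
  refine ⟨fun a σ => H a σ && K a σ, comp_and hH hK, fun a => ?_⟩
  beta_reduce
  rw [hP, hQ]
  simp only [Bool.and_eq_true]
  constructor
  · rintro ⟨⟨s, hs⟩, ⟨t, ht⟩⟩
    exact ⟨max s t, hm _ _ _ (pre_mono Z (le_max_left s t)) hs,
      km _ _ _ (pre_mono Z (le_max_right s t)) ht⟩
  · rintro ⟨s, h1, h2⟩; exact ⟨⟨s, h1⟩, ⟨s, h2⟩⟩

theorem Sg.or {Z : ℕ → Bool} {P Q : α → Prop} (hP : Sg Z P) (hQ : Sg Z Q) :
    Sg Z (fun a => P a ∨ Q a) := by
  obtain ⟨H, hH, hP⟩ := hP
  obtain ⟨K, hK, hQ⟩ := hQ
  refine ⟨fun a σ => H a σ || K a σ, comp_or hH hK, fun a => ?_⟩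
  beta_reduce
  rw [hP, hQ]
  simp only [Bool.or_eq_true]
  constructor
  · rintro (⟨s, hs⟩ | ⟨t, ht⟩)
    · exact ⟨s, Or.inl hs⟩
    · exact ⟨t, Or.inr ht⟩
  · rintro ⟨s, h1 | h2⟩
    · exact Or.inl ⟨s, h1⟩
    · exact Or.inr ⟨s, h2⟩

theorem Sg.ex {Z : ℕ → Bool} {Q : α → β → Prop} (h : Sg Z (fun p : α × β => Q p.1 p.2)) :
    Sg Z (fun a => ∃ b, Q a b) := by
  obtain ⟨H, hH, hm, hP⟩ := h.exists_mono
  refine ⟨fun a τ => (List.range τ.length).any fun n =>
    (Option.casesOn (decode (α := β) n) false (fun b => H (a, b) τ) : Bool), ?_, fun a => ?_⟩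
  · refine comp_list_any (f := fun p : α × List Bool => List.range p.2.length)
      (g := fun p n => (Option.casesOn (decode (α := β) n) false
        (fun b => H (p.1, b) p.2) : Bool)) ?_ ?_
    · exact comp_range (Computable.list_length.comp Computable.snd)
    · refine Computable.option_casesOn (o := fun q : (α × List Bool) × ℕ => decode (α := β) q.2)
        (f := fun _ => false) (g := fun q b => H (q.1.1, b) q.1.2) ?_ ?_ ?_
      · exact Computable.decode.comp Computable.snd
      · exact Computable.const false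
      · exact hH.comp ((Computable.fst.comp (Computable.fst.comp Computable.fst)).pair
          Computable.snd) (Computable.snd.comp (Computable.fst.comp Computable.fst))
  · simp only [List.any_eq_true, List.mem_range]
    constructor
    · rintro ⟨b, hb⟩
      obtain ⟨s, hs⟩ := (hP (a, b)).1 hb
      refine ⟨max s (encode b + 1), encode b, ?_, ?_⟩
      · rw [pre_length]; omega
      · simp only [encodek]
        exact hm _ _ _ (pre_mono Z (le_max_left _ _)) hs
    · rintro ⟨s, n, _, h⟩
      cases hd : decode (α := β) n with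
      | none => rw [hd] at h; simp at h
      | some b => rw [hd] at h; exact ⟨b, (hP (a, b)).2 ⟨s, h⟩⟩

theorem Sg.ball {Z : ℕ → Bool} {Q : α → β → Prop} (h : Sg Z (fun p : α × β => Q p.1 p.2))
    {l : α → List β} (hl : Computable l) : Sg Z (fun a => ∀ b ∈ l a, Q a b) := by
  obtain ⟨H, hH, hm, hP⟩ := h.exists_mono
  refine ⟨fun a τ => !((l a).any fun b => !(H (a, b) τ)), ?_, fun a => ?_⟩
  · refine comp_not (comp_list_any (f := fun p : α × List Bool => l p.1)
      (g := fun p b => !(H (p.1, b) p.2)) (hl.comp Computable.fst) ?_)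
    exact comp_not (hH.comp ((Computable.fst.comp Computable.fst).pair Computable.snd)
      (Computable.snd.comp Computable.fst))
  · have key : ∀ L : List β, (∀ b ∈ L, Q a b) ↔ ∃ s, ∀ b ∈ L, H (a, b) (pre Z s) = true := by
      intro L
      induction L with
      | nil => simp
      | cons b L ih =>
        simp only [List.forall_mem_cons]
        rw [ih, hP (a, b)]
        constructor
        · rintro ⟨⟨s, hs⟩, ⟨t, ht⟩⟩
          exact ⟨max s t, hm _ _ _ (pre_mono Z (le_max_left s t)) hs,
            fun x hx => hm _ _ _ (pre_mono Z (le_max_right s t)) (ht x hx)⟩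
        · rintro ⟨s, h1, h2⟩; exact ⟨⟨s, h1⟩, ⟨s, h2⟩⟩
    beta_reduce
    rw [key]
    refine exists_congr fun s => ?_
    simp only [Bool.not_eq_true', List.any_eq_false, Bool.not_eq_false]

theorem Sg.bex {Z : ℕ → Bool} {Q : α → β → Prop} (h : Sg Z (fun p : α × β => Q p.1 p.2))
    {l : α → List β} (hl : Computable l) : Sg Z (fun a => ∃ b ∈ l a, Q a b) := by
  obtain ⟨H, hH, hP⟩ := h
  refine ⟨fun a τ => (l a).any fun b => H (a, b) τ, ?_, fun a => ?_⟩
  · refine comp_list_any (f := fun p : α × List Bool => l p.1)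
      (g := fun p b => H (p.1, b) p.2) (hl.comp Computable.fst) ?_
    exact hH.comp ((Computable.fst.comp Computable.fst).pair Computable.snd)
      (Computable.snd.comp Computable.fst)
  · simp only [List.any_eq_true]
    constructor
    · rintro ⟨b, hb, hQ⟩
      obtain ⟨s, hs⟩ := (hP (a, b)).1 hQ
      exact ⟨s, b, hb, hs⟩
    · rintro ⟨s, b, hb, h⟩
      exact ⟨b, hb, (hP (a, b)).2 ⟨s, h⟩⟩

theorem Sg.ball_lt {Z : ℕ → Bool} {Q : α → ℕ → Prop} (h : Sg Z (fun p : α × ℕ => Q p.1 p.2))
    {l : α → ℕ} (hl : Computable l) : Sg Z (fun a => ∀ i < l a, Q a i) :=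
  (Sg.ball h (comp_range hl)).congr fun a => by simp

theorem Sg.bex_lt {Z : ℕ → Bool} {Q : α → ℕ → Prop} (h : Sg Z (fun p : α × ℕ => Q p.1 p.2))
    {l : α → ℕ} (hl : Computable l) : Sg Z (fun a => ∃ i < l a, Q a i) :=
  (Sg.bex h (comp_range hl)).congr fun a => by simp

theorem Sg.oracle (Z : ℕ → Bool) (b : Bool) : Sg Z (fun n => Z n = b) := by
  refine ⟨fun n σ => decide (σ[n]? = some b), ?_, fun n => ?_⟩
  · exact comp_decEq (Computable.list_getElem?.comp Computable.snd Computable.fst)
      (Computable.const (some b))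
  · simp only [decide_eq_true_eq]
    constructor
    · intro h
      exact ⟨n + 1, by rw [pre_getElem? Z (Nat.lt_succ_self n), h]⟩
    · rintro ⟨s, h⟩
      have hn : n < s := by
        rw [List.getElem?_eq_some_iff] at h
        simpa [pre_length] using h.1
      rw [pre_getElem? Z hn] at h
      simpa using h

theorem Sg.eq_comp {Z : ℕ → Bool} [DecidableEq β] {f g : α → β} (hf : Computable f)
    (hg : Computable g) : Sg Z (fun a => f a = g a) :=
  (Sg.of_comp (comp_decEq hf hg)).congr fun a => by simp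

theorem Sg.ne_comp {Z : ℕ → Bool} [DecidableEq β] {f g : α → β} (hf : Computable f)
    (hg : Computable g) : Sg Z (fun a => f a ≠ g a) :=
  (Sg.of_comp (comp_not (comp_decEq hf hg))).congr fun a => by simp

theorem Sg.lt_comp {Z : ℕ → Bool} {f g : α → ℕ} (hf : Computable f)
    (hg : Computable g) : Sg Z (fun a => f a < g a) :=
  (Sg.of_comp (comp_decLt hf hg)).congr fun a => by simp

theorem Sg.le_comp {Z : ℕ → Bool} {f g : α → ℕ} (hf : Computable f)
    (hg : Computable g) : Sg Z (fun a => f a ≤ g a) :=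
  (Sg.of_comp (comp_decLe hf hg)).congr fun a => by simp

/-- Total functions computable in `Z`. -/
def Cp (Z : ℕ → Bool) (f : α → β) : Prop := Sg Z (fun p : α × β => f p.1 = p.2)

theorem Cp.of_computable {Z : ℕ → Bool} {f : α → β} (hf : Computable f) : Cp Z f := by
  have h : Sg Z (fun p : α × β => encode (f p.1) = encode p.2) :=
    Sg.eq_comp (Computable.encode.comp (hf.comp Computable.fst))
      (Computable.encode.comp Computable.snd)
  exact h.congr fun p => encode_injective.eq_iff

theorem Sg.subst {Z : ℕ → Bool} {P : β → Prop} (hP : Sg Z P) {f : α → β} (hf : Cp Z f) :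
    Sg Z (fun a => P (f a)) := by
  have h : Sg Z (fun a => ∃ b, f a = b ∧ P b) :=
    Sg.ex (Q := fun a b => f a = b ∧ P b) (Sg.and hf (hP.comp Computable.snd))
  exact h.congr fun a => ⟨fun ⟨b, h1, h2⟩ => h1 ▸ h2, fun h => ⟨_, rfl, h⟩⟩

theorem Cp.comp {Z : ℕ → Bool} {f : β → γ} (hf : Cp Z f) {g : α → β} (hg : Cp Z g) :
    Cp Z (fun a => f (g a)) := by
  have h1 : Sg Z (fun q : (α × γ) × β => g q.1.1 = q.2 ∧ f q.2 = q.1.2) :=
    Sg.and (Sg.comp hg ((Computable.fst.comp Computable.fst).pair Computable.snd))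
      (Sg.comp hf (Computable.snd.pair (Computable.snd.comp Computable.fst)))
  exact (Sg.ex (Q := fun (p : α × γ) (b : β) => g p.1 = b ∧ f b = p.2) h1).congr fun p =>
    ⟨fun ⟨b, h2, h3⟩ => by beta_reduce; rw [h2]; exact h3, fun h => ⟨_, rfl, h⟩⟩

theorem Cp.pair {Z : ℕ → Bool} {f : α → β} (hf : Cp Z f) {g : α → γ} (hg : Cp Z g) :
    Cp Z (fun a => (f a, g a)) := by
  have h1 : Sg Z (fun p : α × (β × γ) => f p.1 = p.2.1 ∧ g p.1 = p.2.2) :=
    Sg.and (Sg.comp hf (Computable.fst.pair (Computable.fst.comp Computable.snd)))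
      (Sg.comp hg (Computable.fst.pair (Computable.snd.comp Computable.snd)))
  exact h1.congr fun p => by rw [Prod.ext_iff]

theorem Cp.comp_computable {Z : ℕ → Bool} {f : β → γ} (hf : Computable f) {g : α → β}
    (hg : Cp Z g) : Cp Z (fun a => f (g a)) := (Cp.of_computable hf).comp hg

theorem Cp.of_dec {Z : ℕ → Bool} {P : α → Prop} [DecidablePred P] (h1 : Sg Z P)
    (h2 : Sg Z (fun a => ¬ P a)) : Cp Z (fun a => decide (P a)) := by
  have h : Sg Z (fun p : α × Bool => (P p.1 ∧ p.2 = true) ∨ (¬ P p.1 ∧ p.2 = false)) :=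
    Sg.or (Sg.and (h1.comp Computable.fst) (Sg.eq_comp Computable.snd (Computable.const true)))
      (Sg.and (h2.comp Computable.fst) (Sg.eq_comp Computable.snd (Computable.const false)))
  refine h.congr fun p => ?_
  obtain ⟨a, b⟩ := p
  by_cases hP : P a <;> cases b <;> simp [hP]

/-- Initial segments of the oracle are computable in it. -/
theorem Cp.pre (Z : ℕ → Bool) : Cp Z (fun s => pre Z s) := by
  have h : Sg Z (fun p : ℕ × List Bool => p.2.length = p.1 ∧
      ∀ i < p.1, Z i = p.2.getD i false) := by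
    refine Sg.and (Sg.eq_comp (Computable.list_length.comp Computable.snd) Computable.fst)
      (Sg.ball_lt (Q := fun (p : ℕ × List Bool) i => Z i = p.2.getD i false) ?_ Computable.fst)
    have h2 : Sg Z (fun q : (ℕ × List Bool) × ℕ =>
        (Z q.2 = true ∧ q.1.2.getD q.2 false = true) ∨
        (Z q.2 = false ∧ q.1.2.getD q.2 false = false)) := by
      have hg : Computable (fun q : (ℕ × List Bool) × ℕ => q.1.2.getD q.2 false) :=
        (Primrec.list_getD false).to_comp.comp (Computable.snd.comp Computable.fst) Computable.snd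
      exact Sg.or (Sg.and ((Sg.oracle Z true).comp Computable.snd)
        (Sg.eq_comp hg (Computable.const true)))
        (Sg.and ((Sg.oracle Z false).comp Computable.snd)
        (Sg.eq_comp hg (Computable.const false)))
    refine h2.congr fun q => ?_
    cases Z q.2 <;> cases q.1.2.getD q.2 false <;> simp
  refine h.congr fun p => ?_
  obtain ⟨s, τ⟩ := p
  simp only
  constructor
  · rintro ⟨h1, h2⟩
    refine List.ext_getElem (by rw [pre_length, h1]) fun i hi hi' => ?_
    have := h2 i (by rwa [h1] at hi')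
    rw [List.getD_eq_getElem _ _ hi'] at this
    rw [← this]
    simp [H19.pre]
  · intro h
    subst h
    refine ⟨pre_length Z s, fun i hi => ?_⟩
    rw [pre_getD Z hi]

/-- `Ar Z B`: the set with characteristic function `B` is computable in `Z`. -/
def Ar (Z B : ℕ → Bool) : Prop := Sg Z (fun n => B n = true) ∧ Sg Z (fun n => B n = false)

theorem Ar.refl (Z : ℕ → Bool) : Ar Z Z := ⟨Sg.oracle Z true, Sg.oracle Z false⟩

theorem Ar.eq {Z B : ℕ → Bool} (h : Ar Z B) {f : α → ℕ} {g : α → Bool} (hf : Computable f)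
    (hg : Computable g) : Sg Z (fun a => B (f a) = g a) := by
  have h2 : Sg Z (fun a => (B (f a) = true ∧ g a = true) ∨ (B (f a) = false ∧ g a = false)) :=
    Sg.or (Sg.and (h.1.comp hf) (Sg.eq_comp hg (Computable.const true)))
      (Sg.and (h.2.comp hf) (Sg.eq_comp hg (Computable.const false)))
  refine h2.congr fun a => ?_
  cases B (f a) <;> cases g a <;> simp

theorem Sg.trans {Z Z' : ℕ → Bool} (hZ : Ar Z Z') {P : α → Prop} (h : Sg Z' P) : Sg Z P := by
  obtain ⟨H, hH, hP⟩ := h
  have h1 : Sg Z (fun q : α × List Bool => H q.1 q.2 = true ∧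
      ∀ i < q.2.length, Z' i = q.2.getD i false) := by
    refine Sg.and (Sg.of_comp hH) (Sg.ball_lt
      (Q := fun (p : α × List Bool) i => Z' i = p.2.getD i false) ?_
      (Computable.list_length.comp Computable.snd))
    exact hZ.eq Computable.snd ((Primrec.list_getD false).to_comp.comp
      (Computable.snd.comp Computable.fst) Computable.snd)
  refine (Sg.ex (Q := fun (a : α) (τ : List Bool) => H a τ = true ∧
      ∀ i < τ.length, Z' i = τ.getD i false) h1).congr fun a => ?_
  rw [hP]
  constructor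
  · rintro ⟨τ, h1, h2⟩
    refine ⟨τ.length, ?_⟩
    have : pre Z' τ.length = τ := by
      refine List.ext_getElem (pre_length _ _) fun i hi hi' => ?_
      have := h2 i hi'
      rw [List.getD_eq_getElem _ _ hi'] at this
      rw [← this]; simp [H19.pre]
    rwa [this]
  · rintro ⟨s, hs⟩
    refine ⟨pre Z' s, hs, fun i hi => ?_⟩
    rw [pre_length] at hi
    rw [pre_getD Z' hi]

theorem Ar.trans {Z Z' B : ℕ → Bool} (hZ : Ar Z Z') (h : Ar Z' B) : Ar Z B :=
  ⟨h.1.trans hZ, h.2.trans hZ⟩

/-- Mathlib Turing reducibility agrees with `Ar`. -/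
theorem ar_iff {Z B : ℕ → Bool} : TuringReducible (chi B) (chi Z) ↔ Ar Z B := by
  constructor
  · intro h
    obtain ⟨c, hc1, hc2⟩ := exists_codeComputes h
    have key : ∀ b : Bool, Sg Z (fun n => B n = b) := by
      intro b
      have h1 : Sg Z (fun p : ℕ × ℕ => ∃ s, decide (Nat.Partrec.Code.evaln p.2 c
          (encode (p.1, pre Z s)) = some (if b then 1 else 0)) = true) := by
        refine ⟨fun p σ => decide (Nat.Partrec.Code.evaln p.2 c
          (encode (p.1, σ)) = some (if b then 1 else 0)), ?_, fun p => Iff.rfl⟩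
        refine comp_decEq ?_ (Computable.const _)
        refine (Nat.Partrec.Code.primrec_evaln.to_comp).comp
          (Computable.pair (Computable.pair (Computable.snd.comp Computable.fst)
            (Computable.const c)) ?_)
        exact Computable.encode.comp (Computable.pair (Computable.fst.comp Computable.fst)
          Computable.snd)
      refine (Sg.ex (Q := fun (n k : ℕ) => ∃ s, decide (Nat.Partrec.Code.evaln k c
          (encode (n, pre Z s)) = some (if b then 1 else 0)) = true) h1).congr fun n => ?_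
      constructor
      · rintro ⟨k, s, h⟩
        have h := of_decide_eq_true h
        have := hc1 n s _ (Nat.Partrec.Code.evaln_sound (Option.mem_def.2 h))
        cases b <;> cases hB : B n <;> simp_all
      · rintro rfl
        obtain ⟨s, hs⟩ := hc2 n
        obtain ⟨k, hk⟩ := Nat.Partrec.Code.evaln_complete.1 hs
        exact ⟨k, s, decide_eq_true (Option.mem_def.1 hk)⟩
    exact ⟨key true, key false⟩
  · rintro ⟨⟨H, hH, hP⟩, ⟨K, hK, hQ⟩⟩
    have hF : Partrec₂ (fun (n : ℕ) (σ : List Bool) =>
        (((if H n σ then some 1 else if K n σ then some 0 else none) : Option ℕ) : Part ℕ)) := by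
      refine Computable.ofOption ?_
      exact comp_ite (c := fun p : ℕ × List Bool => H p.1 p.2) hH (Computable.const (some 1))
        (comp_ite (c := fun p : ℕ × List Bool => K p.1 p.2) hK (Computable.const (some 0))
          (Computable.const none))
    obtain ⟨c, hc⟩ := exists_code_of_partrec₂ hF
    refine turingReducible_of_codeComputes (c := c) ⟨fun n s v hv => ?_, fun n => ?_⟩
    · rw [hc] at hv
      by_cases h1 : H n (pre Z s) = true
      · have : B n = true := (hP n).2 ⟨s, h1⟩
        simp_all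
      · by_cases h2 : K n (pre Z s) = true
        · have h3 : B n = false := (hQ n).2 ⟨s, h2⟩
          rw [h3]
          simpa [h1, h2] using hv
        · simp [h1, h2] at hv
    · cases hB : B n with
      | true =>
        obtain ⟨s, hs⟩ := (hP n).1 hB
        exact ⟨s, by rw [hc]; simp [hs]⟩
      | false =>
        obtain ⟨s, hs⟩ := (hQ n).1 hB
        refine ⟨s, ?_⟩
        rw [hc]
        have h1 : ¬ H n (pre Z s) = true := fun h1 => by
          have h2 : B n = true := (hP n).2 ⟨s, h1⟩
          rw [hB] at h2; exact Bool.noConfusion h2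
        simp [hs, h1]

/-- The domain of a partial function recursive in `Z` is computably enumerable in `Z`. -/
theorem Sg.dom {Z : ℕ → Bool} {f : ℕ →. ℕ} (hf : RecursiveIn {chi Z} f) :
    Sg Z (fun n => (f n).Dom) := by
  obtain ⟨F, hF1, _, hF3⟩ := use_principle Z (RecursiveIn.iff_nat.1 hf)
  obtain ⟨c, hc⟩ := exists_code_of_partrec₂ hF1
  have h1 : Sg Z (fun p : ℕ × ℕ => ∃ s, (Nat.Partrec.Code.evaln p.2 c
      (encode (p.1, pre Z s))).isSome = true) := by
    refine ⟨fun p σ => (Nat.Partrec.Code.evaln p.2 c (encode (p.1, σ))).isSome, ?_,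
      fun p => Iff.rfl⟩
    refine Primrec.option_isSome.to_comp.comp ?_
    refine (Nat.Partrec.Code.primrec_evaln.to_comp).comp
      (Computable.pair (Computable.pair (Computable.snd.comp Computable.fst)
        (Computable.const c)) ?_)
    exact Computable.encode.comp (Computable.pair (Computable.fst.comp Computable.fst)
      Computable.snd)
  refine (Sg.ex (Q := fun (n k : ℕ) => ∃ s, (Nat.Partrec.Code.evaln k c
      (encode (n, pre Z s))).isSome = true) h1).congr fun n => ?_
  rw [Part.dom_iff_mem]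
  constructor
  · rintro ⟨k, s, h⟩
    obtain ⟨v, hv⟩ := Option.isSome_iff_exists.1 h
    refine ⟨v, (hF3 n v).2 ⟨s, ?_⟩⟩
    rw [← hc]
    exact Nat.Partrec.Code.evaln_sound (Option.mem_def.2 hv)
  · rintro ⟨v, hv⟩
    obtain ⟨s, hs⟩ := (hF3 n v).1 hv
    rw [← hc] at hs
    obtain ⟨k, hk⟩ := Nat.Partrec.Code.evaln_complete.1 hs
    exact ⟨k, s, by rw [Option.mem_def.1 hk]; rfl⟩

end Pool.Agent.H24P
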