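import Mathlib
import Pool.Agent.H24P.Sigma

/-!
Inductive definitions, choice and iteration in the calculus of relations computably enumerable in
an oracle.
-/

set_option autoImplicit false

namespace Pool.Agent.H24P

open Encodable Pool.Agent.H19

variable {α β γ : Type*} [Primcodable α] [Primcodable β] [Primcodable γ]

/-- The least set closed under the rules: from the finitely many premises in `l` infer `e`. -/
inductive Der {E : Type*} (J : List E → E → Prop) : E → Prop
  | mk (l : List E) (e : E) (h : ∀ x ∈ l, Der J x) (hJ : J l e) : Der J e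

/-- `c` is a derivation: each entry follows from previous ones. -/
def IsCert {E : Type*} (J : List E → E → Prop) (cs : List E) : Prop :=
  ∀ i < cs.length, ∃ p : List E × E, cs[i]? = some p.2 ∧ (∀ x ∈ p.1, x ∈ cs.take i) ∧ J p.1 p.2

theorem IsCert.append {E : Type*} {J : List E → E → Prop} {c d : List E} (hc : IsCert J c)
    (hd : IsCert J d) : IsCert J (c ++ d) := by
  intro i hi
  by_cases h : i < c.length
  · obtain ⟨p, h1, h2, h3⟩ := hc i h
    refine ⟨p, by rw [List.getElem?_append_left h, h1], fun x hx => ?_, h3⟩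
    rw [List.take_append_of_le_length (by omega)]
    exact h2 x hx
  · rw [List.length_append] at hi
    obtain ⟨p, h1, h2, h3⟩ := hd (i - c.length) (by omega)
    refine ⟨p, by rw [List.getElem?_append_right (by omega), h1], fun x hx => ?_, h3⟩
    rw [List.take_append, List.mem_append]
    exact Or.inr (h2 x hx)

theorem IsCert.snoc {E : Type*} {J : List E → E → Prop} {c : List E} (hc : IsCert J c)
    {l : List E} {e : E} (hl : ∀ x ∈ l, x ∈ c) (hJ : J l e) : IsCert J (c ++ [e]) := by
  intro i hi
  rw [List.length_append, List.length_singleton] at hi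
  by_cases h : i < c.length
  · obtain ⟨p, h1, h2, h3⟩ := hc i h
    refine ⟨p, by rw [List.getElem?_append_left h, h1], fun x hx => ?_, h3⟩
    rw [List.take_append_of_le_length (by omega)]
    exact h2 x hx
  · have hi' : i = c.length := by omega
    subst hi'
    refine ⟨(l, e), by simp, fun x hx => ?_, hJ⟩
    rw [List.take_append_of_le_length le_rfl, List.take_length]
    exact hl x hx

theorem der_iff_cert {E : Type*} {J : List E → E → Prop} {e : E} :
    Der J e ↔ ∃ c : List E, e ∈ c ∧ IsCert J c := by
  constructor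
  · intro h
    induction h with
    | mk l e h hJ ih =>
      have key : ∀ l' : List E, (∀ x ∈ l', ∃ c : List E, x ∈ c ∧ IsCert J c) →
          ∃ c : List E, (∀ x ∈ l', x ∈ c) ∧ IsCert J c := by
        intro l'
        induction l' with
        | nil => intro _; exact ⟨[], by simp, fun i hi => absurd hi (by simp)⟩
        | cons a l' ih' =>
          intro hx
          obtain ⟨c1, h1, h2⟩ := hx a (by simp)
          obtain ⟨c2, h3, h4⟩ := ih' fun x hx' => hx x (by simp [hx'])
          refine ⟨c1 ++ c2, fun x hx' => ?_, h2.append h4⟩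
          rcases List.mem_cons.1 hx' with rfl | hx'
          · exact List.mem_append.2 (Or.inl h1)
          · exact List.mem_append.2 (Or.inr (h3 x hx'))
      obtain ⟨c, h1, h2⟩ := key l ih
      exact ⟨c ++ [e], by simp, h2.snoc h1 hJ⟩
  · rintro ⟨c, he, hc⟩
    have key : ∀ (i : ℕ) (x : E), (c)[i]? = some x → Der J x := by
      intro i
      induction i using Nat.strong_induction_on with
      | _ i ih =>
        intro x hx
        have hi : i < c.length := (List.getElem?_eq_some_iff.1 hx).1
        obtain ⟨p, h1, h2, h3⟩ := hc i hi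
        rw [hx] at h1
        have h4 : x = p.2 := by simpa using h1
        subst h4
        refine Der.mk p.1 p.2 (fun y hy => ?_) h3
        obtain ⟨j, hj, hj'⟩ := List.getElem_of_mem (h2 y hy)
        rw [List.length_take] at hj
        refine ih j (by omega) y ?_
        rw [List.getElem_take] at hj'
        rw [← hj']
        exact List.getElem?_eq_getElem _
    obtain ⟨i, hi, hi'⟩ := List.getElem_of_mem he
    exact key i e (by rw [← hi']; exact List.getElem?_eq_getElem _)

theorem Sg.mem_list {Z : ℕ → Bool} [DecidableEq β] {f : α → β} {l : α → List β}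
    (hf : Computable f) (hl : Computable l) : Sg Z (fun a => f a ∈ l a) := by
  have h : Sg Z (fun a => ∃ b ∈ l a, f a = b) :=
    Sg.bex (Q := fun a b => f a = b) (Sg.eq_comp (hf.comp Computable.fst) Computable.snd) hl
  exact h.congr fun a => by simp

theorem Sg.der {Z : ℕ → Bool} [DecidableEq β] {J : List β → β → Prop}
    (hJ : Sg Z (fun p : List β × β => J p.1 p.2)) : Sg Z (Der J) := by
  have h : Sg Z (fun e : β => ∃ c : List β, e ∈ c ∧ IsCert J c) := by
    refine Sg.ex (Q := fun (e : β) (c : List β) => e ∈ c ∧ IsCert J c) ?_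
    refine Sg.and (Sg.mem_list Computable.fst Computable.snd) ?_
    refine Sg.comp (P := fun c : List β => IsCert J c) ?_ Computable.snd
    refine Sg.ball_lt (Q := fun (cs : List β) i => ∃ p : List β × β, cs[i]? = some p.2 ∧
      (∀ x ∈ p.1, x ∈ cs.take i) ∧ J p.1 p.2) ?_ Computable.list_length
    refine Sg.ex (Q := fun (q : List β × ℕ) (p : List β × β) => q.1[q.2]? = some p.2 ∧
      (∀ x ∈ p.1, x ∈ q.1.take q.2) ∧ J p.1 p.2) ?_
    refine Sg.and ?_ (Sg.and ?_ (hJ.comp Computable.snd))
    · exact Sg.eq_comp (Computable.list_getElem?.comp (Computable.fst.comp Computable.fst)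
        (Computable.snd.comp Computable.fst))
        (Computable.option_some.comp (Computable.snd.comp Computable.snd))
    · refine Sg.ball (Q := fun (q : (List β × ℕ) × (List β × β)) x => x ∈ q.1.1.take q.1.2) ?_
        (Computable.fst.comp Computable.snd)
      exact Sg.mem_list Computable.snd (comp_take (Computable.snd.comp (Computable.fst.comp
        Computable.fst)) (Computable.fst.comp (Computable.fst.comp Computable.fst)))
  exact h.congr fun e => der_iff_cert.symm

/-- A decidable approximation of a computably enumerable relation. -/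
theorem Sg.exists_approx {Z : ℕ → Bool} {P : α → Prop} (h : Sg Z P) :
    ∃ D : α → ℕ → Bool, Cp Z (fun p : α × ℕ => D p.1 p.2) ∧ ∀ a, P a ↔ ∃ s, D a s = true := by
  obtain ⟨H, hH, hP⟩ := h
  refine ⟨fun a s => H a (pre Z s), ?_, hP⟩
  exact (Cp.of_computable (f := fun p : α × List Bool => H p.1 p.2) hH).comp
    ((Cp.of_computable Computable.fst).pair ((Cp.pre Z).comp (Cp.of_computable Computable.snd)))

/-- The canonical choice of a witness for a computably enumerable relation: there is a
computably enumerable single-valued subrelation with the same domain. -/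
theorem Sg.uniformize {Z : ℕ → Bool} {R : α → β → Prop}
    (hR : Sg Z (fun p : α × β => R p.1 p.2)) :
    ∃ S : α → β → Prop, Sg Z (fun p : α × β => S p.1 p.2) ∧ (∀ a b, S a b → R a b) ∧
      (∀ a b b', S a b → S a b' → b = b') ∧ ∀ a, (∃ b, R a b) → ∃ b, S a b := by
  obtain ⟨D, hD, hP⟩ := hR.exists_approx
  -- `E a q`: the number `q` codes a pair of a witness and a stage
  let E : α → ℕ → Bool := fun a q =>
    (Option.casesOn (decode (α := β × ℕ) q) false (fun p => D (a, p.1) p.2) : Bool)
  have hE : ∀ b : Bool, Sg Z (fun p : α × ℕ => E p.1 p.2 = b) := by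
    intro b
    have h1 : Sg Z (fun p : α × ℕ => (∃ q : β × ℕ, decode (α := β × ℕ) p.2 = some q ∧
        D (p.1, q.1) q.2 = b) ∨ ((decode (α := β × ℕ) p.2).isSome = false ∧ b = false)) := by
      refine Sg.or (Sg.ex (Q := fun (p : α × ℕ) (q : β × ℕ) => decode (α := β × ℕ) p.2 = some q ∧
        D (p.1, q.1) q.2 = b) (Sg.and ?_ ?_)) (Sg.and ?_ (Sg.const Z _))
      · have h2 : Sg Z (fun x : (α × ℕ) × (β × ℕ) =>
            encode (decode (α := β × ℕ) x.1.2) = encode (some x.2)) :=
          Sg.eq_comp (Computable.encode.comp (Computable.decode.comp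
            (Computable.snd.comp Computable.fst)))
            (Computable.encode.comp (Computable.option_some.comp Computable.snd))
        exact h2.congr fun x => encode_injective.eq_iff
      · have h3 : Sg Z (fun x : ((α × β) × ℕ) × Bool => D x.1.1 x.1.2 = x.2) := hD
        exact h3.comp (f := fun x : (α × ℕ) × (β × ℕ) => (((x.1.1, x.2.1), x.2.2), b))
          (Computable.pair (Computable.pair (Computable.pair (Computable.fst.comp Computable.fst)
          (Computable.fst.comp Computable.snd)) (Computable.snd.comp Computable.snd))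
          (Computable.const b))
      · exact Sg.eq_comp (Primrec.option_isSome.to_comp.comp
          (Computable.decode.comp Computable.snd)) (Computable.const false)
    refine h1.congr fun p => ?_
    obtain ⟨a, n⟩ := p
    simp only [E]
    cases hd : decode (α := β × ℕ) n with
    | none => cases b <;> simp
    | some q => simp
  let S : α → β → Prop := fun a b => ∃ q : ℕ, (E a q = true ∧
    (∃ s : ℕ, decode (α := β × ℕ) q = some (b, s))) ∧ ∀ q' < q, E a q' = false
  refine ⟨S, ?_, ?_, ?_, ?_⟩
  · refine Sg.ex (Q := fun (p : α × β) (q : ℕ) => (E p.1 q = true ∧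
      (∃ s : ℕ, decode (α := β × ℕ) q = some (p.2, s))) ∧ ∀ q' < q, E p.1 q' = false) ?_
    refine Sg.and (Sg.and ?_ ?_) ?_
    · exact (hE true).comp (f := fun x : (α × β) × ℕ => (x.1.1, x.2))
        ((Computable.fst.comp Computable.fst).pair Computable.snd)
    · refine Sg.ex (Q := fun (x : (α × β) × ℕ) (s : ℕ) =>
        decode (α := β × ℕ) x.2 = some (x.1.2, s)) ?_
      have h2 : Sg Z (fun x : ((α × β) × ℕ) × ℕ =>
          encode (decode (α := β × ℕ) x.1.2) = encode (some (x.1.1.2, x.2))) :=
        Sg.eq_comp (Computable.encode.comp (Computable.decode.comp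
          (Computable.snd.comp Computable.fst)))
          (Computable.encode.comp (Computable.option_some.comp (Computable.pair
            (Computable.snd.comp (Computable.fst.comp Computable.fst)) Computable.snd)))
      exact h2.congr fun x => encode_injective.eq_iff
    · refine Sg.ball_lt (Q := fun (x : (α × β) × ℕ) (q' : ℕ) => E x.1.1 q' = false) ?_
        Computable.snd
      exact (hE false).comp (f := fun x : ((α × β) × ℕ) × ℕ => (x.1.1.1, x.2))
        ((Computable.fst.comp (Computable.fst.comp Computable.fst)).pair Computable.snd)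
  · rintro a b ⟨q, ⟨h1, s, h2⟩, _⟩
    simp only [E, h2] at h1
    exact (hP (a, b)).2 ⟨s, h1⟩
  · rintro a b b' ⟨q, ⟨h1, s, h2⟩, h3⟩ ⟨q', ⟨h1', s', h2'⟩, h3'⟩
    have hq : q = q' := by
      rcases lt_trichotomy q q' with h | h | h
      · rw [h3' q h] at h1; exact absurd h1 (by simp)
      · exact h
      · rw [h3 q' h] at h1'; exact absurd h1' (by simp)
    subst hq
    rw [h2] at h2'
    simpa using (Prod.ext_iff.1 (Option.some.inj h2')).1
  · rintro a ⟨b, hb⟩
    obtain ⟨s, hs⟩ := (hP (a, b)).1 hb
    have hex : ∃ q, E a q = true := ⟨encode (b, s), by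
      simp only [E]
      rw [encodek]
      exact hs⟩
    obtain ⟨m, h1, h2⟩ : ∃ m, E a m = true ∧ ∀ q' < m, ¬ E a q' = true := by
      classical
      exact ⟨Nat.find hex, Nat.find_spec hex, fun q' h => Nat.find_min hex h⟩
    cases hd : decode (α := β × ℕ) m with
    | none => simp only [E, hd] at h1; exact absurd h1 (by simp)
    | some p =>
      refine ⟨p.1, m, ⟨h1, p.2, by rw [hd]⟩, fun q' hq' => ?_⟩
      simpa using h2 q' hq'

/-- Choice for computably enumerable relations. -/
theorem Sg.exists_cp {Z : ℕ → Bool} {R : α → β → Prop}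
    (hR : Sg Z (fun p : α × β => R p.1 p.2)) (hex : ∀ a, ∃ b, R a b) :
    ∃ f : α → β, Cp Z f ∧ ∀ a, R a (f a) := by
  obtain ⟨S, hS, h1, h2, h3⟩ := hR.uniformize
  choose f hf using fun a => h3 a (hex a)
  refine ⟨f, hS.congr fun p => ?_, fun a => h1 _ _ (hf a)⟩
  exact ⟨fun h => h2 _ _ _ (hf p.1) h, fun h => h ▸ hf p.1⟩

/-- Dependent choice for computably enumerable relations. -/
theorem Sg.exists_seq {Z : ℕ → Bool} [DecidableEq α] {R : α → α → Prop}
    (hR : Sg Z (fun p : α × α => R p.1 p.2)) (Good : α → Prop) (x0 : α) (h0 : Good x0)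
    (hex : ∀ x, Good x → ∃ y, R x y) (hgood : ∀ x y, Good x → R x y → Good y) :
    ∃ g : ℕ → α, Cp Z g ∧ g 0 = x0 ∧ (∀ n, R (g n) (g (n + 1))) ∧ ∀ n, Good (g n) := by
  obtain ⟨S, hS, h1, h2, h3⟩ := hR.uniformize
  have hex' : ∀ x, Good x → ∃ y, S x y := fun x hx => h3 x (hex x hx)
  let nxt : {x // Good x} → {x // Good x} := fun x =>
    ⟨Classical.choose (hex' x.1 x.2), hgood _ _ x.2 (h1 _ _ (Classical.choose_spec (hex' x.1 x.2)))⟩
  have hnxt : ∀ x, S x.1 (nxt x).1 := fun x => Classical.choose_spec (hex' x.1 x.2)
  let G : ℕ → {x // Good x} := fun n => nxt^[n] ⟨x0, h0⟩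
  have hG : ∀ n, G (n + 1) = nxt (G n) := fun n => Function.iterate_succ_apply' _ _ _
  let J : List (ℕ × α) → ℕ × α → Prop := fun l e => (e.1 = 0 ∧ e.2 = x0) ∨
    ∃ p ∈ l, e.1 = p.1 + 1 ∧ S p.2 e.2
  have hJ : Sg Z (fun p : List (ℕ × α) × (ℕ × α) => J p.1 p.2) := by
    refine Sg.or (Sg.and ?_ ?_) ?_
    · exact Sg.eq_comp (Computable.fst.comp Computable.snd) (Computable.const 0)
    · exact Sg.eq_comp (Computable.snd.comp Computable.snd) (Computable.const x0)
    · refine Sg.bex (Q := fun (q : List (ℕ × α) × (ℕ × α)) (p : ℕ × α) =>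
        q.2.1 = p.1 + 1 ∧ S p.2 q.2.2) (Sg.and ?_ ?_) Computable.fst
      · exact Sg.eq_comp (Computable.fst.comp (Computable.snd.comp Computable.fst))
          (Computable.succ.comp (Computable.fst.comp Computable.snd))
      · exact hS.comp ((Computable.snd.comp Computable.snd).pair
          (Computable.snd.comp (Computable.snd.comp Computable.fst)))
  refine ⟨fun n => (G n).1, ?_, rfl, fun n => ?_, fun n => (G n).2⟩
  · refine (Sg.der hJ).congr fun e => ?_
    constructor
    · intro h
      induction h with
      | mk l e h hJe ih =>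
        rcases hJe with ⟨h4, h5⟩ | ⟨p, hp, h4, h5⟩
        · rw [h4, h5]; rfl
        · have h6 : (G p.1).1 = p.2 := ih p hp
          beta_reduce
          rw [h4, hG]
          rw [← h6] at h5
          exact h2 _ _ _ (hnxt (G p.1)) h5
    · intro h
      obtain ⟨n, x⟩ := e
      simp only at h
      subst h
      induction n with
      | zero => exact Der.mk [] _ (by simp) (Or.inl ⟨rfl, rfl⟩)
      | succ n ih =>
        refine Der.mk [(n, (G n).1)] _ (by simpa using ih)
          (Or.inr ⟨(n, (G n).1), by simp, rfl, ?_⟩)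
        simp only
        rw [hG]
        exact hnxt (G n)
  · beta_reduce
    rw [hG]; exact h1 _ _ (hnxt (G n))

end Pool.Agent.H24P
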